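import Mathlib
import Pool.Agent.Q63.PC.Defs

/-!
# Elementary abelian 2-coverings of projective spaces branched over hyperplanes: definitions
-/

set_option autoImplicit false

namespace Pool.Agent.Q63.GB

open Pool.Agent.Q63.PC

/-- The number of the hyperplanes over which the double covering `Y / ker a` is branched. -/
def weight {s : ℕ} (a : Fin s → ZMod 2) : ℕ := (Finset.univ.filter fun i => a i ≠ 0).card

open Classical in
/-- The Hodge number `h^{p,q}`, `p + q = n`, `p ≠ q`, of a covering with the group of characters `Λ`: for `a ≠ 0` the
`a`-part of `H^n` is isomorphic, for special positions of the hyperplanes, to the `n`-th exterior power of the `H^1` of a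
hyperelliptic curve of genus `weight a / 2 - 1`. -/
noncomputable def hodge {s : ℕ} (Λ : AddSubgroup (Fin s → ZMod 2)) (p q : ℕ) : ℕ :=
  ∑ a with a ∈ Λ ∧ a ≠ 0, (weight a / 2 - 1).choose p * (weight a / 2 - 1).choose q

/-- `Y → P^n` is a smooth covering over `ℂ` with the group `G`, a quotient of `(ℤ/2)^s`, branched over `s`
hyperplanes in general position; `Λ` is the group of the characters of `G`. `V i` is the tensor product with `ℂ` of
the group of homologically trivial cycles of dimension `i` on `Y`, with rational coefficients. -/
structure HyperplaneCover {s : ℕ} (n : ℕ) (Λ : AddSubgroup (Fin s → ZMod 2)) (ψ : AddChar (ZMod 2) ℂ)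
    {V : ℕ → Type} [∀ i, AddCommGroup (V i)] [∀ i, Module ℂ (V i)]
    (ρ : ∀ i, Representation ℂ (Multiplicative (Fin s → ZMod 2)) (V i)) : Prop where
  /-- only characters of `G` occur -/
  characters : ∀ i (a : Fin s → ZMod 2) (v : V i), v ≠ 0 → Eigen ψ (ρ i) a v → a ∈ Λ
  /-- double coverings are branched in even degree -/
  even : ∀ a ∈ Λ, ∑ i, a i = 0
  /-- The double covering `Y / ker a` of `P^n` is a toric variety if it is branched over at most `n + 1`
  hyperplanes; if it is branched over `w ≥ n + 2` hyperplanes then it is a quotient of a smooth complete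
  intersection of `w - n - 1` quadrics in `P^(w-1)`, which has no nonzero homologically trivial cycles of dimension
  `i < n + 1 - w / 2` (with rational coefficients; and none at all if it is a quadric, `w = n + 2`). -/
  known : ∀ i, ∀ a ∈ Λ, weight a ≤ n + 2 ∨ 2 * i + weight a < 2 * n + 2 →
    ∀ v, KerFixed (ρ i) a v → v = 0

end Pool.Agent.Q63.GB
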