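import Mathlib
import Pool.Agent.Q63.GB.Defs
import Pool.Agent.Q63.PC.Main

set_option autoImplicit false

namespace Pool.Agent.Q63.GB

open Multiplicative Pool.Agent.Q63.PC Pool.Agent.Q63.KU

variable {s : ℕ}

lemma weight_even {a : Fin s → ZMod 2} (ha : ∑ i, a i = 0) : Even (weight a) := by
  have h2 : ∀ x : ZMod 2, x = if x ≠ 0 then 1 else 0 := by decide
  rw [Finset.sum_congr rfl fun i _ => h2 (a i), Finset.sum_ite, Finset.sum_const_zero,
    add_zero, Finset.sum_const, nsmul_eq_mul, mul_one] at ha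
  exact (ZMod.natCast_eq_zero_iff_even).1 ha

theorem main {n : ℕ} (hn : 1 ≤ n) {Λ : AddSubgroup (Fin s → ZMod 2)} {ψ : AddChar (ZMod 2) ℂ} (hψ : ψ.IsPrimitive)
    {V : ℕ → Type} [∀ i, AddCommGroup (V i)] [∀ i, Module ℂ (V i)]
    {ρ : ∀ i, Representation ℂ (Multiplicative (Fin s → ZMod 2)) (V i)}
    (hY : HyperplaneCover n Λ ψ ρ) (c : ℕ)
    (hc : ∀ p q, p + q = n → p ≠ q → min p q < c → hodge Λ p q = 0) (i : ℕ) (hi : i < c) (v : V i) :
    v = 0 := by
  classical
  rw [← sum_comp (ρ := ρ i) hψ v]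
  refine Finset.sum_eq_zero fun a _ => ?_
  by_contra h0
  have he : Eigen ψ (ρ i) a (comp (ρ i) ψ v a) := eigen_comp v a
  have ha := hY.characters i a _ h0 he
  have hnot : ¬ (weight a ≤ n + 2 ∨ 2 * i + weight a < 2 * n + 2) := fun h =>
    h0 (hY.known i a ha h _ he.kerFixed)
  push Not at hnot
  obtain ⟨h1, h2⟩ := hnot
  obtain ⟨g, hg⟩ := weight_even (hY.even a ha)
  have ha0 : a ≠ 0 := by
    rintro rfl
    have : weight (0 : Fin s → ZMod 2) = 0 := by simp [weight]
    omega
  have hterm : ∀ p q, hodge Λ p q = 0 →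
      (weight a / 2 - 1).choose p * (weight a / 2 - 1).choose q = 0 := by
    intro p q h
    unfold hodge at h
    exact (Finset.sum_eq_zero_iff.1 h) a (by simpa using ⟨ha, ha0⟩)
  have hw : weight a / 2 = g := by omega
  rcases le_or_gt (weight a) (2 * n + 2) with hle | hgt
  · have h3 := hterm (g - 1) (n + 1 - g) (hc (g - 1) (n + 1 - g) (by omega) (by omega) (by omega))
    rw [hw] at h3
    rcases Nat.mul_eq_zero.1 h3 with h4 | h4
    · rw [Nat.choose_eq_zero_iff] at h4
      omega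
    · rw [Nat.choose_eq_zero_iff] at h4
      omega
  · have h3 := hterm n 0 (hc n 0 (by omega) (by omega) (by
      rw [Nat.min_zero]
      omega))
    rw [hw] at h3
    rcases Nat.mul_eq_zero.1 h3 with h4 | h4
    · rw [Nat.choose_eq_zero_iff] at h4
      omega
    · rw [Nat.choose_eq_zero_iff] at h4
      omega

end Pool.Agent.Q63.GB
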